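import Pool.Agent.Helper61.P3.St2

/-!
# Project P3, module OVL: overlaps
-/

set_option autoImplicit false

open MeasureTheory Set Filter Topology
open scoped ENNReal RealInnerProductSpace

namespace Pool.Agent.Helper73.P3

open Pool.Agent.Helper61.P3 Pool.Agent.Helper20.RG Pool.Agent.Helper20.EQ
open Pool.Agent.Helper68.LM (Pl BB Bd Av HL ft fm DQ)
open Pool.Agent.Helper68.EP (elt GapP)

theorem sum_lintegral_le {α ι : Type*} [MeasurableSpace α] (μ : Measure α) (s : Finset ι)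
    (f : ι → α → ℝ≥0∞) : ∑ i ∈ s, ∫⁻ a, f i a ∂μ ≤ ∫⁻ a, ∑ i ∈ s, f i a ∂μ := by
  classical
  induction s using Finset.induction_on with
  | empty => simp
  | insert i s hi ih =>
    rw [Finset.sum_insert hi]
    simp_rw [Finset.sum_insert hi]
    calc (∫⁻ a, f i a ∂μ) + ∑ i ∈ s, ∫⁻ a, f i a ∂μ
        ≤ (∫⁻ a, f i a ∂μ) + ∫⁻ a, ∑ i ∈ s, f i a ∂μ := by gcongr
      _ ≤ _ := le_lintegral_add _ _

theorem tsum_lintegral_le {α ι : Type*} [MeasurableSpace α] (μ : Measure α)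
    (f : ι → α → ℝ≥0∞) : ∑' i, ∫⁻ a, f i a ∂μ ≤ ∫⁻ a, ∑' i, f i a ∂μ := by
  rw [ENNReal.tsum_eq_iSup_sum]
  apply iSup_le
  intro s
  exact (sum_lintegral_le μ s f).trans (lintegral_mono fun a => ENNReal.sum_le_tsum s)

/-- number of integers in an interval -/
theorem cnt (L t c : ℝ) (hL : 0 < L) (hc : 0 ≤ c) :
    ∑' n : ℤ, (if |t - (n : ℝ) * L| ≤ c then (1 : ℝ≥0∞) else 0) ≤ ENNReal.ofReal (2 * c / L + 1) := by
  have h0 : ∀ n : ℤ, n ∉ Finset.Icc ⌈(t - c) / L⌉ ⌊(t + c) / L⌋ →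
      (if |t - (n : ℝ) * L| ≤ c then (1 : ℝ≥0∞) else 0) = 0 := by
    intro n hn
    rw [if_neg]
    intro h
    apply hn
    rw [abs_le] at h
    rw [Finset.mem_Icc, Int.ceil_le, Int.le_floor, div_le_iff₀ hL, le_div_iff₀ hL]
    constructor <;> linarith [h.1, h.2]
  rw [tsum_eq_sum h0]
  have h1 : ∑ n ∈ Finset.Icc ⌈(t - c) / L⌉ ⌊(t + c) / L⌋,
      (if |t - (n : ℝ) * L| ≤ c then (1 : ℝ≥0∞) else 0) ≤
      ((Finset.Icc ⌈(t - c) / L⌉ ⌊(t + c) / L⌋).card : ℝ≥0∞) := by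
    calc ∑ n ∈ Finset.Icc ⌈(t - c) / L⌉ ⌊(t + c) / L⌋,
        (if |t - (n : ℝ) * L| ≤ c then (1 : ℝ≥0∞) else 0)
        ≤ ∑ n ∈ Finset.Icc ⌈(t - c) / L⌉ ⌊(t + c) / L⌋, (1 : ℝ≥0∞) := by
          apply Finset.sum_le_sum
          intro n _
          split_ifs <;> simp
      _ = _ := by simp
  refine h1.trans ?_
  rw [← ENNReal.ofReal_natCast]
  apply ENNReal.ofReal_le_ofReal
  rw [Int.card_Icc]
  have hb : ((⌊(t + c) / L⌋ : ℤ) : ℝ) ≤ (t + c) / L := Int.floor_le _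
  have ha : (t - c) / L ≤ ((⌈(t - c) / L⌉ : ℤ) : ℝ) := Int.le_ceil _
  have hd : (t + c) / L - (t - c) / L = 2 * c / L := by ring
  have hpos : 0 ≤ 2 * c / L := by positivity
  rcases le_or_gt 0 (⌊(t + c) / L⌋ + 1 - ⌈(t - c) / L⌉) with h | h
  · have e : (((⌊(t + c) / L⌋ + 1 - ⌈(t - c) / L⌉).toNat : ℕ) : ℝ) =
        ((⌊(t + c) / L⌋ + 1 - ⌈(t - c) / L⌉ : ℤ) : ℝ) := by
      exact_mod_cast Int.toNat_of_nonneg h
    rw [e]
    push_cast
    linarith
  · rw [Int.toNat_of_nonpos h.le]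
    simp only [Nat.cast_zero]
    linarith

/-- a point is in few squares -/
theorem cnt2 (hPT : StPT) (L c : ℝ) (hL : 0 < L) (hc : 0 ≤ c) (x : Pl) :
    ∑' n : ℤ × ℤ, (Sq (zg L n) c).indicator (fun _ => (1 : ℝ≥0∞)) x ≤
      ENNReal.ofReal (2 * c / L + 1) * ENNReal.ofReal (2 * c / L + 1) := by
  have e : ∀ n : ℤ × ℤ, (Sq (zg L n) c).indicator (fun _ => (1 : ℝ≥0∞)) x =
      (if |x 0 - (n.1 : ℝ) * L| ≤ c then (1 : ℝ≥0∞) else 0) *
        (if |x 1 - (n.2 : ℝ) * L| ≤ c then (1 : ℝ≥0∞) else 0) := by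
    intro n
    have hz0 : (zg L n) 0 = (n.1 : ℝ) * L := (hPT.1 _ _).1
    have hz1 : (zg L n) 1 = (n.2 : ℝ) * L := (hPT.1 _ _).2
    have hiff : x ∈ Sq (zg L n) c ↔ |x 0 - (n.1 : ℝ) * L| ≤ c ∧ |x 1 - (n.2 : ℝ) * L| ≤ c := by
      show (|x 0 - (zg L n) 0| ≤ c ∧ |x 1 - (zg L n) 1| ≤ c) ↔ _
      rw [hz0, hz1]
    by_cases h : x ∈ Sq (zg L n) c
    · rw [indicator_of_mem h, if_pos (hiff.1 h).1, if_pos (hiff.1 h).2, one_mul]
    · rw [indicator_of_notMem h]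
      by_cases h1 : |x 0 - (n.1 : ℝ) * L| ≤ c
      · have h2 : ¬ |x 1 - (n.2 : ℝ) * L| ≤ c := fun h2 => h (hiff.2 ⟨h1, h2⟩)
        rw [if_neg h2, mul_zero]
      · rw [if_neg h1, zero_mul]
  simp_rw [e]
  rw [ENNReal.tsum_prod' (f := fun n : ℤ × ℤ => (if |x 0 - (n.1 : ℝ) * L| ≤ c then (1 : ℝ≥0∞) else 0) *
        (if |x 1 - (n.2 : ℝ) * L| ≤ c then (1 : ℝ≥0∞) else 0))]
  calc ∑' (a : ℤ) (b : ℤ), (if |x 0 - (a : ℝ) * L| ≤ c then (1 : ℝ≥0∞) else 0) *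
        (if |x 1 - (b : ℝ) * L| ≤ c then (1 : ℝ≥0∞) else 0)
      = (∑' a : ℤ, (if |x 0 - (a : ℝ) * L| ≤ c then (1 : ℝ≥0∞) else 0)) *
        ∑' b : ℤ, (if |x 1 - (b : ℝ) * L| ≤ c then (1 : ℝ≥0∞) else 0) := by
        rw [← ENNReal.tsum_mul_right]
        apply tsum_congr
        intro a
        rw [ENNReal.tsum_mul_left]
    _ ≤ _ := mul_le_mul' (cnt L (x 0) c hL hc) (cnt L (x 1) c hL hc)

theorem ovl (hPT : StPT) (L c : ℝ) (hL : 0 < L) (hc : 0 ≤ c) (E : Set Pl) :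
    ∑' n : ℤ × ℤ, volume (E ∩ Sq (zg L n) c) ≤
      ENNReal.ofReal (2 * c / L + 1) * ENNReal.ofReal (2 * c / L + 1) * volume E := by
  have hm : ∀ n : ℤ × ℤ, MeasurableSet (Sq (zg L n) c) := fun n =>
    (hPT.2.2.2.2.2.2.2 (zg L n) c hc).1
  have e : ∀ n : ℤ × ℤ, volume (E ∩ Sq (zg L n) c) =
      ∫⁻ x, (Sq (zg L n) c).indicator (fun _ => (1 : ℝ≥0∞)) x ∂(volume.restrict E) := by
    intro n
    rw [lintegral_indicator (hm n), lintegral_one, Measure.restrict_apply_univ,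
      Measure.restrict_apply (hm n), inter_comm]
  simp_rw [e]
  refine (tsum_lintegral_le _ _).trans ?_
  calc ∫⁻ x, ∑' n : ℤ × ℤ, (Sq (zg L n) c).indicator (fun _ => (1 : ℝ≥0∞)) x ∂(volume.restrict E)
      ≤ ∫⁻ _, ENNReal.ofReal (2 * c / L + 1) * ENNReal.ofReal (2 * c / L + 1)
          ∂(volume.restrict E) := lintegral_mono fun x => cnt2 hPT L c hL hc x
    _ = _ := by rw [lintegral_const, Measure.restrict_apply_univ]

theorem hOVL (hPT : StPT) : StOVL := by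
  refine ⟨?_, ?_, ?_, ?_⟩
  · intro L hL x
    refine ⟨(round (x 0 / L), round (x 1 / L)), ?_⟩
    have key : ∀ t : ℝ, |t - (round (t / L) : ℝ) * L| ≤ L / 2 := by
      intro t
      have h := abs_sub_round (t / L)
      have e : t - (round (t / L) : ℝ) * L = (t / L - (round (t / L) : ℝ)) * L := by
        field_simp
      rw [e, abs_mul, abs_of_pos hL]
      calc |t / L - (round (t / L) : ℝ)| * L ≤ 1 / 2 * L := by gcongr
        _ = L / 2 := by ring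
    show |x 0 - (zg L _) 0| ≤ L / 2 ∧ |x 1 - (zg L _) 1| ≤ L / 2
    have hz0 : ∀ n : ℤ × ℤ, (zg L n) 0 = (n.1 : ℝ) * L := fun n => (hPT.1 _ _).1
    have hz1 : ∀ n : ℤ × ℤ, (zg L n) 1 = (n.2 : ℝ) * L := fun n => (hPT.1 _ _).2
    rw [hz0, hz1]
    exact ⟨key _, key _⟩
  · intro L E hL hE
    refine (ovl hPT L (12 * L) hL (by positivity) E).trans (le_of_eq ?_)
    have e : 2 * (12 * L) / L + 1 = 25 := by field_simp; norm_num
    rw [e, ← ENNReal.ofReal_mul (by norm_num)]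
    norm_num
  · intro s κ Γ a ℓ b L hL
    have hz0 : ∀ n : ℤ × ℤ, (zg L n) 0 = (n.1 : ℝ) * L := fun n => (hPT.1 _ _).1
    have hz1 : ∀ n : ℤ × ℤ, (zg L n) 1 = (n.2 : ℝ) * L := fun n => (hPT.1 _ _).2
    obtain ⟨F, hF⟩ : ∃ F : ℝ → ℝ → ℝ≥0∞,
        F = fun y₀ ρ => ENNReal.ofReal (en κ Γ a ℓ (lnf s b y₀) ρ) := ⟨_, rfl⟩
    have hLE : ∀ n : ℤ × ℤ, Pool.Agent.Helper61.P3.LE s κ Γ a ℓ b (zg L n) L =
        ∫⁻ y₀, (if |y₀ - (n.1 : ℝ) * L| ≤ L / 2 then (1 : ℝ≥0∞) else 0) *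
          ∫⁻ ρ, (if |(ρ + s * ((n.1 : ℝ) * L)) - (n.2 : ℝ) * L| ≤ 6 * L then (1 : ℝ≥0∞) else 0) *
            F y₀ ρ := by
      intro n
      unfold Pool.Agent.Helper61.P3.LE
      rw [← lintegral_indicator measurableSet_Icc]
      apply lintegral_congr
      intro y₀
      by_cases h : y₀ ∈ Icc ((zg L n) 0 - L / 2) ((zg L n) 0 + L / 2)
      · rw [indicator_of_mem h]
        rw [hz0, mem_Icc] at h
        rw [if_pos (by rw [abs_le]; constructor <;> linarith [h.1, h.2]), one_mul,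
          ← lintegral_indicator measurableSet_Icc]
        apply lintegral_congr
        intro ρ
        have hp : pr s (zg L n) = (n.2 : ℝ) * L - s * ((n.1 : ℝ) * L) := by
          unfold pr
          rw [hz0, hz1]
        by_cases h' : ρ ∈ Icc (pr s (zg L n) - 6 * L) (pr s (zg L n) + 6 * L)
        · rw [indicator_of_mem h']
          rw [hp, mem_Icc] at h'
          rw [if_pos (by rw [abs_le]; constructor <;> linarith [h'.1, h'.2]), one_mul, hF]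
        · rw [indicator_of_notMem h']
          rw [hp, mem_Icc] at h'
          rw [if_neg, zero_mul]
          intro hc
          rw [abs_le] at hc
          apply h'
          constructor <;> linarith [hc.1, hc.2]
      · rw [indicator_of_notMem h]
        rw [hz0, mem_Icc] at h
        rw [if_neg, zero_mul]
        intro hc
        rw [abs_le] at hc
        apply h
        constructor <;> linarith [hc.1, hc.2]
    simp_rw [hLE]
    rw [ENNReal.tsum_prod' (f := fun n : ℤ × ℤ =>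
      ∫⁻ y₀, (if |y₀ - (n.1 : ℝ) * L| ≤ L / 2 then (1 : ℝ≥0∞) else 0) *
          ∫⁻ ρ, (if |(ρ + s * ((n.1 : ℝ) * L)) - (n.2 : ℝ) * L| ≤ 6 * L then (1 : ℝ≥0∞) else 0) *
            F y₀ ρ)]
    -- inner sum over `n.2`
    have inner : ∀ (n₁ : ℤ) (y₀ : ℝ), ∑' n₂ : ℤ,
        (∫⁻ ρ, (if |(ρ + s * ((n₁ : ℝ) * L)) - (n₂ : ℝ) * L| ≤ 6 * L then (1 : ℝ≥0∞) else 0) *
            F y₀ ρ) ≤ 13 * ∫⁻ ρ, F y₀ ρ := by
      intro n₁ y₀
      refine (tsum_lintegral_le _ _).trans ?_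
      rw [← lintegral_const_mul' _ _ (by norm_num)]
      apply lintegral_mono
      intro ρ
      show ∑' n₂ : ℤ, (if |(ρ + s * ((n₁ : ℝ) * L)) - (n₂ : ℝ) * L| ≤ 6 * L then (1 : ℝ≥0∞) else 0) *
            F y₀ ρ ≤ 13 * F y₀ ρ
      rw [ENNReal.tsum_mul_right]
      refine mul_le_mul' ?_ le_rfl
      refine (cnt L (ρ + s * ((n₁ : ℝ) * L)) (6 * L) hL (by positivity)).trans (le_of_eq ?_)
      have e : 2 * (6 * L) / L + 1 = 13 := by field_simp; norm_num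
      rw [e]
      norm_num
    calc ∑' (n₁ : ℤ) (n₂ : ℤ), ∫⁻ y₀, (if |y₀ - (n₁ : ℝ) * L| ≤ L / 2 then (1 : ℝ≥0∞) else 0) *
          ∫⁻ ρ, (if |(ρ + s * ((n₁ : ℝ) * L)) - (n₂ : ℝ) * L| ≤ 6 * L then (1 : ℝ≥0∞) else 0) *
            F y₀ ρ
        ≤ ∑' (n₁ : ℤ), ∫⁻ y₀, (if |y₀ - (n₁ : ℝ) * L| ≤ L / 2 then (1 : ℝ≥0∞) else 0) *
            (13 * ∫⁻ ρ, F y₀ ρ) := by
          apply ENNReal.tsum_le_tsum
          intro n₁
          refine (tsum_lintegral_le _ _).trans ?_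
          apply lintegral_mono
          intro y₀
          show ∑' n₂ : ℤ, (if |y₀ - (n₁ : ℝ) * L| ≤ L / 2 then (1 : ℝ≥0∞) else 0) *
            (∫⁻ ρ, (if |(ρ + s * ((n₁ : ℝ) * L)) - (n₂ : ℝ) * L| ≤ 6 * L then (1 : ℝ≥0∞) else 0) *
              F y₀ ρ) ≤ _
          rw [ENNReal.tsum_mul_left]
          exact mul_le_mul' le_rfl (inner n₁ y₀)
      _ ≤ ∫⁻ y₀, ∑' (n₁ : ℤ), (if |y₀ - (n₁ : ℝ) * L| ≤ L / 2 then (1 : ℝ≥0∞) else 0) *
            (13 * ∫⁻ ρ, F y₀ ρ) := tsum_lintegral_le _ _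
      _ ≤ ∫⁻ y₀, 26 * ∫⁻ ρ, F y₀ ρ := by
          apply lintegral_mono
          intro y₀
          show ∑' (n₁ : ℤ), (if |y₀ - (n₁ : ℝ) * L| ≤ L / 2 then (1 : ℝ≥0∞) else 0) *
            (13 * ∫⁻ ρ, F y₀ ρ) ≤ 26 * ∫⁻ ρ, F y₀ ρ
          rw [ENNReal.tsum_mul_right]
          have h2 : ∑' (n₁ : ℤ), (if |y₀ - (n₁ : ℝ) * L| ≤ L / 2 then (1 : ℝ≥0∞) else 0) ≤ 2 := by
            refine (cnt L y₀ (L / 2) hL (by positivity)).trans (le_of_eq ?_)
            have e : 2 * (L / 2) / L + 1 = 2 := by field_simp; norm_num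
            rw [e]
            norm_num
          calc (∑' (n₁ : ℤ), (if |y₀ - (n₁ : ℝ) * L| ≤ L / 2 then (1 : ℝ≥0∞) else 0)) *
              (13 * ∫⁻ ρ, F y₀ ρ) ≤ 2 * (13 * ∫⁻ ρ, F y₀ ρ) := by gcongr
            _ = 26 * ∫⁻ ρ, F y₀ ρ := by rw [← mul_assoc]; norm_num
      _ = 26 * EN s κ Γ a ℓ b := by
          rw [lintegral_const_mul' _ _ (by norm_num), hF]
          rfl
  · intro N L r D S R hL hLr hD _ hR
    have hr : 0 < r := lt_of_lt_of_le hL hLr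
    have hDr : 0 < D * r ^ 2 := by positivity
    have hz0 : ∀ n : ℤ × ℤ, (zg L n) 0 = (n.1 : ℝ) * L := fun n => (hPT.1 _ _).1
    have hz1 : ∀ n : ℤ × ℤ, (zg L n) 1 = (n.2 : ℝ) * L := fun n => (hPT.1 _ _).2
    have h1 : ∀ n : ℤ × ℤ, {n : ℤ × ℤ | (R ∩ Sq (zg L n) (L / 2)).Nonempty}.indicator
        (fun _ => ENNReal.ofReal (L ^ 2)) n * ENNReal.ofReal (D * r ^ 2) ≤
        ENNReal.ofReal (L ^ 2) * ∑ j ∈ Finset.range N, volume (S j ∩ Sq (zg L n) (3 * r / 2)) := by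
      intro n
      by_cases h : n ∈ {n : ℤ × ℤ | (R ∩ Sq (zg L n) (L / 2)).Nonempty}
      · rw [indicator_of_mem h]
        gcongr
        obtain ⟨x, hxR, hx⟩ := h
        refine (hR x hxR).trans ?_
        apply Finset.sum_le_sum
        intro j _
        apply measure_mono
        apply inter_subset_inter_right
        intro y hy
        have hx0 : |x 0 - (zg L n) 0| ≤ L / 2 := hx.1
        have hx1 : |x 1 - (zg L n) 1| ≤ L / 2 := hx.2
        have hy0 : |y 0 - x 0| ≤ r := hy.1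
        have hy1 : |y 1 - x 1| ≤ r := hy.2
        constructor
        · have := abs_sub_le (y 0) (x 0) ((zg L n) 0)
          linarith
        · have := abs_sub_le (y 1) (x 1) ((zg L n) 1)
          linarith
      · rw [indicator_of_notMem h, zero_mul]
        exact bot_le
    have h2 : (∑' n : ℤ × ℤ, {n : ℤ × ℤ | (R ∩ Sq (zg L n) (L / 2)).Nonempty}.indicator
        (fun _ => ENNReal.ofReal (L ^ 2)) n) * ENNReal.ofReal (D * r ^ 2) ≤
        ENNReal.ofReal (16 * r ^ 2) * ∑ j ∈ Finset.range N, volume (S j) := by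
      rw [← ENNReal.tsum_mul_right]
      calc ∑' n : ℤ × ℤ, {n : ℤ × ℤ | (R ∩ Sq (zg L n) (L / 2)).Nonempty}.indicator
            (fun _ => ENNReal.ofReal (L ^ 2)) n * ENNReal.ofReal (D * r ^ 2)
          ≤ ∑' n : ℤ × ℤ, ENNReal.ofReal (L ^ 2) *
            ∑ j ∈ Finset.range N, volume (S j ∩ Sq (zg L n) (3 * r / 2)) :=
            ENNReal.tsum_le_tsum h1
        _ = ENNReal.ofReal (L ^ 2) * ∑ j ∈ Finset.range N,
            ∑' n : ℤ × ℤ, volume (S j ∩ Sq (zg L n) (3 * r / 2)) := by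
            rw [ENNReal.tsum_mul_left, Summable.tsum_finsetSum (fun _ _ => ENNReal.summable)]
        _ ≤ ENNReal.ofReal (L ^ 2) * ∑ j ∈ Finset.range N,
            ENNReal.ofReal (16 * r ^ 2 / L ^ 2) * volume (S j) := by
            gcongr with j hj
            refine (ovl hPT L (3 * r / 2) hL (by positivity) (S j)).trans ?_
            gcongr
            rw [← ENNReal.ofReal_mul (by positivity)]
            apply ENNReal.ofReal_le_ofReal
            have e : 2 * (3 * r / 2) / L = 3 * (r / L) := by ring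
            have e' : 16 * r ^ 2 / L ^ 2 = 16 * (r / L) ^ 2 := by
              rw [div_pow]; ring
            rw [e, e']
            have h1 : 1 ≤ r / L := (one_le_div hL).2 hLr
            nlinarith
        _ = _ := by
            rw [← Finset.mul_sum, ← mul_assoc, ← ENNReal.ofReal_mul (by positivity)]
            congr 2
            field_simp
    have h3 : (∑' n : ℤ × ℤ, {n : ℤ × ℤ | (R ∩ Sq (zg L n) (L / 2)).Nonempty}.indicator
        (fun _ => ENNReal.ofReal (L ^ 2)) n) ≤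
        ENNReal.ofReal (16 * r ^ 2) * (∑ j ∈ Finset.range N, volume (S j)) /
          ENNReal.ofReal (D * r ^ 2) := by
      rw [ENNReal.le_div_iff_mul_le (Or.inl (by simpa using hDr)) (Or.inl ENNReal.ofReal_ne_top)]
      exact h2
    refine h3.trans ?_
    have e : ENNReal.ofReal (16 * r ^ 2) * (∑ j ∈ Finset.range N, volume (S j)) /
          ENNReal.ofReal (D * r ^ 2) = ENNReal.ofReal (16 / D) * ∑ j ∈ Finset.range N, volume (S j) := by
      rw [mul_comm (ENNReal.ofReal (16 * r ^ 2)), mul_div_assoc, ← ENNReal.ofReal_div_of_pos hDr,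
        mul_comm]
      congr 2
      field_simp
    rw [e]
    gcongr
    norm_num

end Pool.Agent.Helper73.P3
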