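import Pool.Agent.Helper61.P3.St4

/-!
# Project P3, module SNE: near pairs
-/

set_option autoImplicit false

open MeasureTheory Set Filter Topology
open scoped ENNReal RealInnerProductSpace

namespace Pool.Agent.Helper73.P3

open Pool.Agent.Helper61.P3 Pool.Agent.Helper20.RG Pool.Agent.Helper20.EQ
open Pool.Agent.Helper68.LM (Pl BB Bd Av HL ft fm DQ)
open Pool.Agent.Helper68.EP (elt GapP)

theorem sne_summable : Summable fun s : ℕ => ((s : ℝ) + 1) ^ 4 * (2 : ℝ) ^ (-((s : ℝ) / 160)) := by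
  have hr0 : (0 : ℝ) < (2 : ℝ) ^ (-(1 / 160 : ℝ)) := by positivity
  have hr1 : (2 : ℝ) ^ (-(1 / 160 : ℝ)) < 1 :=
    Real.rpow_lt_one_of_one_lt_of_neg (by norm_num) (by norm_num)
  have h1 : Summable fun n : ℕ => (n : ℝ) ^ 4 * ((2 : ℝ) ^ (-(1 / 160 : ℝ))) ^ n :=
    summable_pow_mul_geometric_of_norm_lt_one 4 (by rw [Real.norm_of_nonneg hr0.le]; exact hr1)
  have h2 := ((summable_nat_add_iff 1).mpr h1).mul_right (((2 : ℝ) ^ (-(1 / 160 : ℝ)))⁻¹)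
  refine h2.congr ?_
  intro s
  have h3 : (2 : ℝ) ^ (-((s : ℝ) / 160)) = ((2 : ℝ) ^ (-(1 / 160 : ℝ))) ^ s := by
    rw [← Real.rpow_natCast, ← Real.rpow_mul (by norm_num)]
    congr 1
    ring
  rw [h3]
  push_cast
  field_simp
  ring

theorem sne_card (s : ℕ) (a : ℝ≥0∞) :
    ∑' n : ℕ, (if n ≤ s then a else 0) = ENNReal.ofReal ((s : ℝ) + 1) * a := by
  rw [tsum_eq_sum (s := Finset.range (s + 1))]
  · rw [Finset.sum_congr rfl (g := fun _ => a)]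
    · rw [Finset.sum_const, Finset.card_range, nsmul_eq_mul]
      congr 1
      rw [show ((s : ℝ) + 1) = ((s + 1 : ℕ) : ℝ) by push_cast; ring, ENNReal.ofReal_natCast]
    · intro n hn
      rw [if_pos]
      have := Finset.mem_range.mp hn
      omega
  · intro n hn
    rw [if_neg]
    intro h
    exact hn (Finset.mem_range.mpr (by omega))

theorem sne_sum (a : ℕ → ℝ≥0∞) :
    ∑' q : ℕ × ℕ × ℕ × ℕ × ℕ, (if q.2.1 ≤ q.1 ∧ q.2.2.1 ≤ q.1 ∧ q.2.2.2.1 ≤ q.1 ∧ q.2.2.2.2 ≤ q.1 then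
      a q.1 else 0) = ∑' s : ℕ, ENNReal.ofReal (((s : ℝ) + 1) ^ 4) * a s := by
  rw [ENNReal.tsum_prod']
  apply tsum_congr
  intro s
  rw [ENNReal.tsum_prod']
  have h1 : ∀ n : ℕ, (∑' b : ℕ × ℕ × ℕ, (if n ≤ s ∧ b.1 ≤ s ∧ b.2.1 ≤ s ∧ b.2.2 ≤ s then a s else 0)) =
      if n ≤ s then ENNReal.ofReal ((s : ℝ) + 1) * (ENNReal.ofReal ((s : ℝ) + 1) *
        (ENNReal.ofReal ((s : ℝ) + 1) * a s)) else 0 := by
    intro n
    by_cases hn : n ≤ s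
    · rw [if_pos hn, ENNReal.tsum_prod']
      rw [← sne_card]
      apply tsum_congr
      intro n'
      by_cases hn' : n' ≤ s
      · rw [if_pos hn', ENNReal.tsum_prod', ← sne_card]
        apply tsum_congr
        intro r
        by_cases hr : r ≤ s
        · rw [if_pos hr, ← sne_card]
          apply tsum_congr
          intro r'
          simp [hn, hn', hr]
        · rw [if_neg hr]
          simp [hr]
      · rw [if_neg hn']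
        simp [hn']
    · rw [if_neg hn]
      simp [hn]
  rw [tsum_congr h1, sne_card]
  rw [show ((s : ℝ) + 1) ^ 4 = ((s : ℝ) + 1) * (((s : ℝ) + 1) * (((s : ℝ) + 1) * ((s : ℝ) + 1))) by ring]
  have h0 : (0 : ℝ) ≤ (s : ℝ) + 1 := by positivity
  rw [ENNReal.ofReal_mul h0, ENNReal.ofReal_mul h0, ENNReal.ofReal_mul h0]
  ring

theorem hSNE (hNES : Pool.Agent.Helper61.P3.StNES) : Pool.Agent.Helper61.P3.StSNE := by
  intro φ τ A c hG hA hGap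
  obtain ⟨C, U₀, hC, h⟩ := hNES φ τ A c hG hA hGap
  have hS0 : 0 ≤ ∑' s : ℕ, ((s : ℝ) + 1) ^ 4 * (2 : ℝ) ^ (-((s : ℝ) / 160)) :=
    tsum_nonneg fun s => by positivity
  set S : ℝ := ∑' s : ℕ, ((s : ℝ) + 1) ^ 4 * (2 : ℝ) ^ (-((s : ℝ) / 160)) with hS
  refine ⟨C * (1 + S), U₀, by nlinarith, ?_⟩
  intro R₀ f hR hB hf
  have hCR : C ≤ R₀ := by nlinarith
  set F : ℕ × ℕ × ℕ × ℕ × ℕ → ℤ → ℝ≥0∞ := fun q l =>
    if U₀ ≤ q.1 ∧ 40000 * q.2.1 ≤ q.1 ∧ 40000 * q.2.2.1 ≤ q.1 then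
      ∑' u : ℕ, (if U₀ ≤ u ∧ q.1 ≤ 8 * u then
        ∑' k : ℤ, volume {x | Gd R₀ l f x ∧ TY c φ τ (Vs q.1) u q.2.1 q.2.2.2.1 k l f x ∧
          TY c φ τ (Vs q.1) (u + q.1) q.2.2.1 q.2.2.2.2 k l f x} else 0) else 0 with hF
  have key : ∀ l : ℤ, volume {x | Gd R₀ l f x ∧ ∃ (k : ℤ) (s u n n' ρ ρ' : ℕ),
        U₀ ≤ s ∧ U₀ ≤ u ∧ s ≤ 8 * u ∧ 40000 * n ≤ s ∧ 40000 * n' ≤ s ∧
          TY c φ τ (Vs s) u n ρ k l f x ∧ TY c φ τ (Vs s) (u + s) n' ρ' k l f x} ≤ ∑' q, F q l := by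
    intro l
    have h1 : {x | Gd R₀ l f x ∧ ∃ (k : ℤ) (s u n n' ρ ρ' : ℕ),
        U₀ ≤ s ∧ U₀ ≤ u ∧ s ≤ 8 * u ∧ 40000 * n ≤ s ∧ 40000 * n' ≤ s ∧
          TY c φ τ (Vs s) u n ρ k l f x ∧ TY c φ τ (Vs s) (u + s) n' ρ' k l f x} ⊆
        ⋃ q : ℕ × ℕ × ℕ × ℕ × ℕ, ⋃ u : ℕ, ⋃ k : ℤ,
          {x | (U₀ ≤ q.1 ∧ 40000 * q.2.1 ≤ q.1 ∧ 40000 * q.2.2.1 ≤ q.1) ∧ (U₀ ≤ u ∧ q.1 ≤ 8 * u) ∧
            Gd R₀ l f x ∧ TY c φ τ (Vs q.1) u q.2.1 q.2.2.2.1 k l f x ∧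
              TY c φ τ (Vs q.1) (u + q.1) q.2.2.1 q.2.2.2.2 k l f x} := by
      rintro x ⟨hx, k, s, u, n, n', ρ, ρ', h1, h2, h3, h4, h5, h6, h7⟩
      simp only [mem_iUnion, mem_ofPred_eq]
      exact ⟨(s, n, n', ρ, ρ'), u, k, ⟨h1, h4, h5⟩, ⟨h2, h3⟩, hx, h6, h7⟩
    refine (measure_mono h1).trans ((measure_iUnion_le _).trans (ENNReal.tsum_le_tsum fun q => ?_))
    rw [hF]
    dsimp only
    by_cases hq : U₀ ≤ q.1 ∧ 40000 * q.2.1 ≤ q.1 ∧ 40000 * q.2.2.1 ≤ q.1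
    · rw [if_pos hq]
      refine (measure_iUnion_le _).trans (ENNReal.tsum_le_tsum fun u => ?_)
      by_cases hu : U₀ ≤ u ∧ q.1 ≤ 8 * u
      · rw [if_pos hu]
        refine (measure_iUnion_le _).trans (ENNReal.tsum_le_tsum fun k => measure_mono ?_)
        rintro x ⟨-, -, hx⟩
        exact hx
      · rw [if_neg hu]
        refine le_of_eq ?_
        have : (⋃ k : ℤ, {x | (U₀ ≤ q.1 ∧ 40000 * q.2.1 ≤ q.1 ∧ 40000 * q.2.2.1 ≤ q.1) ∧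
            (U₀ ≤ u ∧ q.1 ≤ 8 * u) ∧ Gd R₀ l f x ∧ TY c φ τ (Vs q.1) u q.2.1 q.2.2.2.1 k l f x ∧
              TY c φ τ (Vs q.1) (u + q.1) q.2.2.1 q.2.2.2.2 k l f x}) = ∅ := by
          rw [iUnion_eq_empty]
          intro k
          ext x
          simp only [mem_ofPred_eq, mem_empty_iff_false, iff_false]
          rintro ⟨-, hx, -⟩
          exact hu hx
        rw [this, measure_empty]
    · rw [if_neg hq]
      refine le_of_eq ?_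
      have : (⋃ u : ℕ, ⋃ k : ℤ, {x | (U₀ ≤ q.1 ∧ 40000 * q.2.1 ≤ q.1 ∧ 40000 * q.2.2.1 ≤ q.1) ∧
          (U₀ ≤ u ∧ q.1 ≤ 8 * u) ∧ Gd R₀ l f x ∧ TY c φ τ (Vs q.1) u q.2.1 q.2.2.2.1 k l f x ∧
            TY c φ τ (Vs q.1) (u + q.1) q.2.2.1 q.2.2.2.2 k l f x}) = ∅ := by
        rw [iUnion_eq_empty]
        intro u
        rw [iUnion_eq_empty]
        intro k
        ext x
        simp only [mem_ofPred_eq, mem_empty_iff_false, iff_false]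
        rintro ⟨hx, -⟩
        exact hq hx
      rw [this, measure_empty]
  set I : ℝ≥0∞ := ∫⁻ x, ENNReal.ofReal (f x) ^ (3 : ℝ) with hI
  have h2 : ∀ q : ℕ × ℕ × ℕ × ℕ × ℕ, ∑' l : ℤ, ENNReal.ofReal ((2 : ℝ) ^ (3 * l)) * F q l ≤
      (if q.2.1 ≤ q.1 ∧ q.2.2.1 ≤ q.1 ∧ q.2.2.2.1 ≤ q.1 ∧ q.2.2.2.2 ≤ q.1 then
        ENNReal.ofReal (C * (2 : ℝ) ^ (-((q.1 : ℝ) / 160))) * I else 0) := by
    intro q
    rw [hF]
    dsimp only
    by_cases hq : U₀ ≤ q.1 ∧ 40000 * q.2.1 ≤ q.1 ∧ 40000 * q.2.2.1 ≤ q.1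
    · simp only [if_pos hq]
      refine (h R₀ q.1 q.2.1 q.2.2.1 q.2.2.2.1 q.2.2.2.2 f hCR hq.1 hq.2.1 hq.2.2 hB hf).trans ?_
      by_cases hr : 20000 * q.2.2.2.1 ≤ q.1 ∧ 20000 * q.2.2.2.2 ≤ q.1
      · rw [if_pos hr, if_pos ⟨by omega, by omega, by omega, by omega⟩]
      · rw [if_neg hr, zero_mul]
        exact zero_le
    · simp only [if_neg hq]
      simp
  calc ∑' l : ℤ, ENNReal.ofReal ((2 : ℝ) ^ (3 * l)) * volume {x | Gd R₀ l f x ∧ ∃ (k : ℤ) (s u n n' ρ ρ' : ℕ),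
        U₀ ≤ s ∧ U₀ ≤ u ∧ s ≤ 8 * u ∧ 40000 * n ≤ s ∧ 40000 * n' ≤ s ∧
          TY c φ τ (Vs s) u n ρ k l f x ∧ TY c φ τ (Vs s) (u + s) n' ρ' k l f x}
      ≤ ∑' l : ℤ, ENNReal.ofReal ((2 : ℝ) ^ (3 * l)) * ∑' q, F q l :=
        ENNReal.tsum_le_tsum fun l => by gcongr; exact key l
    _ = ∑' q, ∑' l : ℤ, ENNReal.ofReal ((2 : ℝ) ^ (3 * l)) * F q l := by
        rw [ENNReal.tsum_comm]
        exact tsum_congr fun l => by rw [ENNReal.tsum_mul_left]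
    _ ≤ ∑' q : ℕ × ℕ × ℕ × ℕ × ℕ,
        (if q.2.1 ≤ q.1 ∧ q.2.2.1 ≤ q.1 ∧ q.2.2.2.1 ≤ q.1 ∧ q.2.2.2.2 ≤ q.1 then
          ENNReal.ofReal (C * (2 : ℝ) ^ (-((q.1 : ℝ) / 160))) * I else 0) :=
        ENNReal.tsum_le_tsum h2
    _ = ∑' s : ℕ, ENNReal.ofReal (((s : ℝ) + 1) ^ 4) *
        (ENNReal.ofReal (C * (2 : ℝ) ^ (-((s : ℝ) / 160))) * I) :=
        sne_sum fun s => ENNReal.ofReal (C * (2 : ℝ) ^ (-((s : ℝ) / 160))) * I
    _ = (∑' s : ℕ, ENNReal.ofReal (C * (((s : ℝ) + 1) ^ 4 * (2 : ℝ) ^ (-((s : ℝ) / 160))))) * I := by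
        rw [← ENNReal.tsum_mul_right]
        apply tsum_congr
        intro s
        rw [← mul_assoc, ← ENNReal.ofReal_mul (by positivity)]
        congr 2
        ring
    _ = ENNReal.ofReal (C * S) * I := by
        rw [← ENNReal.ofReal_tsum_of_nonneg (fun s => by positivity) (sne_summable.mul_left C),
          tsum_mul_left]
    _ ≤ ENNReal.ofReal (C * (1 + S)) * I := by
        gcongr
        linarith

end Pool.Agent.Helper73.P3
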